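import Pool.Agent.KS6_77.ShiftAll.Main

set_option autoImplicit false

namespace Pool.Agent.Results.MP_e3676c_co.ExactUniformity

universe u

/-- every `m`-uniform shift-chain on `[n]`, for every `n`, is 2-colourable -/
def AllColourable (m : ℕ) : Prop :=
  ∀ (n : ℕ) (H : Finset (Finset (Fin n))) (hH : ∀ A ∈ H, A.card = m),
    (∀ A (hA : A ∈ H) B (hB : B ∈ H),
      (∀ i : Fin m, A.orderEmbOfFin (hH A hA) i ≤ B.orderEmbOfFin (hH B hB) i) ∨
      (∀ i : Fin m, B.orderEmbOfFin (hH B hB) i ≤ A.orderEmbOfFin (hH A hA) i)) →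
    ∃ c : Fin n → Bool, ∀ A ∈ H, ∃ x ∈ A, ∃ y ∈ A, c x ≠ c y

def f1 : Fin 1 → Fin 1 → Fin 1 := fun _ _ => 0

def f2 : Fin 3 → Fin 2 → Fin 3 := ![![0, 1], ![0, 2], ![1, 2]]

/-- 11 triples on 9 points, increasing in the shift order, not 2-colourable -/
def f3 : Fin 11 → Fin 3 → Fin 9 :=
  ![![0, 1, 2], ![0, 3, 4], ![1, 3, 4], ![2, 3, 4], ![2, 3, 5], ![2, 4, 6], ![3, 5, 6],
    ![4, 5, 6], ![4, 5, 7], ![4, 5, 8], ![6, 7, 8]]

theorem small : ∀ m < 4, ¬ AllColourable m := by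
  intro m hm
  have h0 : ¬ AllColourable 0 := Pool.Agent.KS6_77.ShiftAll.not_of_tuples
    (n := 0) (k := 1) (fun _ i => i.elim0) (fun _ i => i.elim0) (fun _ _ => Or.inl fun i => i.elim0)
    (fun _ => ⟨0, fun i => i.elim0⟩)
  have h1 : ¬ AllColourable 1 := Pool.Agent.KS6_77.ShiftAll.not_of_tuples f1
    (fun _ i j h => by omega) (fun _ _ => Or.inl fun _ => le_rfl) (fun _ => ⟨0, fun _ _ => rfl⟩)
  have h2 : ¬ AllColourable 2 := Pool.Agent.KS6_77.ShiftAll.not_of_tuples f2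
    (by unfold StrictMono; decide) (by simp only [Pi.le_def]; decide) (by decide)
  have h3 : ¬ AllColourable 3 := Pool.Agent.KS6_77.ShiftAll.not_of_tuples f3
    (by unfold StrictMono; decide) (by simp only [Pi.le_def]; decide) (by decide +kernel)
  interval_cases m
  exacts [h0, h1, h2, h3]

/-- **Exact uniformity for 2-colourability of shift-chains, and all linear orders.**
1. Let `L` be any linear order and `T` any set (finite or infinite) of strictly increasing
   4-tuples of `L` that is a chain for the coordinatewise order.  Then `L` has a 2-colouring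
   without monochromatic tuple of `T`.
2. For every `m ≥ 4` and every linear order `L`, every `m`-uniform shift-chain in `L`, with finitely
   or infinitely many hyperedges, is 2-colourable.
3. For `m : ℕ`, all `m`-uniform shift-chains on `[n]`, `n ∈ ℕ`, are 2-colourable if and only if
   `m ≥ 4`. -/
theorem result :
    (∀ (L : Type u) [LinearOrder L] (T : Set (Fin 4 → L)),
      (∀ x ∈ T, StrictMono x) → (∀ x ∈ T, ∀ y ∈ T, x ≤ y ∨ y ≤ x) →
      ∃ c : L → Bool, ∀ x ∈ T, ∃ i j : Fin 4, c (x i) ≠ c (x j)) ∧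
    (∀ (m : ℕ), 4 ≤ m → ∀ (L : Type u) [LinearOrder L] (H : Set (Finset L))
      (hH : ∀ A ∈ H, A.card = m),
      (∀ A (hA : A ∈ H) B (hB : B ∈ H),
        (∀ i : Fin m, A.orderEmbOfFin (hH A hA) i ≤ B.orderEmbOfFin (hH B hB) i) ∨
        (∀ i : Fin m, B.orderEmbOfFin (hH B hB) i ≤ A.orderEmbOfFin (hH A hA) i)) →
      ∃ c : L → Bool, ∀ A ∈ H, ∃ x ∈ A, ∃ y ∈ A, c x ≠ c y) ∧
    (∀ m : ℕ, AllColourable m ↔ 4 ≤ m) := by
  refine ⟨fun L _ T h1 h2 => Pool.Agent.KS6_77.ShiftAll.tuples_all T h1 h2,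
    fun m hm L _ H hH hch => Pool.Agent.KS6_77.ShiftAll.sets_all hm H hH hch,
    fun m => ⟨fun h => not_lt.1 fun hm => small m hm h, fun hm n H hH hch => ?_⟩⟩
  obtain ⟨c, hc⟩ := Pool.Agent.KS6_77.ShiftAll.sets_all hm (H : Set (Finset (Fin n)))
    (fun A hA => hH A (Finset.mem_coe.1 hA)) (fun A hA B hB =>
      hch A (Finset.mem_coe.1 hA) B (Finset.mem_coe.1 hB))
  exact ⟨c, fun A hA => hc A (Finset.mem_coe.2 hA)⟩

end Pool.Agent.Results.MP_e3676c_co.ExactUniformity
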